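import Mathlib
import Pool.Agent.H92.SG.Stmts
import Pool.Agent.H56.SG.KL1

/-!
# The special kernel vectors of the block of 7_7
-/

namespace Pool.Agent.H64.SG

open Pool.Agent.H92.SG
open Pool.Agent.H56.SG

set_option linter.unusedSimpArgs false

theorem val1 (w : ℂ) (hw : w ^ 2 + w + 1 = 0) (s0 s1 s2 s3 : V2 ℂ)
    (e0 : s0 = ![2 * w + 1, -2 * w - 1]) (e1 : s1 = ![-2 * w - 3, -1]) (e2 : s2 = ![2 * w, 1])
    (e3 : s3 = 0)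
    (y2 y3 z1 z2 x2 x3 p1 p2 q0 q1 r1 r2 f0 f1 : V2 ℂ)
    (h1 : y2 = w • ![w * s3 1, w ^ 2 * s3 0]) (h2 : y3 = s2 + s3 - y2)
    (h3 : z2 = w ^ 2 • ![w ^ 2 * s1 1, w * s1 0]) (h4 : z1 = y2 + s1 - z2)
    (h5 : x2 = w • ![y3 1, y3 0]) (h6 : x3 = z2 + y3 - x2)
    (h7 : p2 = w ^ 2 • ![w ^ 2 * z1 1, w * z1 0]) (h8 : p1 = x2 + z1 - p2)
    (h9 : q0 = w • ![p1 1, p1 0]) (h10 : q1 = s0 + p1 - q0)
    (h11 : r2 = w ^ 2 • ![w ^ 2 * q1 1, w * q1 0]) (h12 : r1 = p2 + q1 - r2)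
    (h13 : f0 = w • ![w * r1 1, w ^ 2 * r1 0]) (h14 : f1 = q0 + r1 - f0) :
    f0 = s0 ∧ f1 = s1 ∧ r2 = s2 ∧ x3 = s3 := by
  subst h14 h13 h12 h11 h10 h9 h8 h7 h6 h5 h4 h3 h2 h1
  subst e0 e1 e2 e3
  refine ⟨?_, ?_, ?_, ?_⟩
  · funext p
    fin_cases p
    · simp only [Fin.zero_eta, Fin.mk_one, Fin.isValue, Pi.smul_apply, Pi.sub_apply, Pi.add_apply,
        Pi.zero_apply, smul_eq_mul, Matrix.cons_val_zero, Matrix.cons_val_one]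
      linear_combination ((-1) * w ^ 0 + (-1) * w ^ 1 + (2) * w ^ 3 + (1) * w ^ 4 + (2) * w ^ 5 + (-3) * w ^ 6 + (-1) * w ^ 7 + (6) * w ^ 8 + (-1) * w ^ 9 + (2) * w ^ 10 + (1) * w ^ 11) * hw
    · simp only [Fin.zero_eta, Fin.mk_one, Fin.isValue, Pi.smul_apply, Pi.sub_apply, Pi.add_apply,
        Pi.zero_apply, smul_eq_mul, Matrix.cons_val_zero, Matrix.cons_val_one]
      linear_combination ((1) * w ^ 0 + (1) * w ^ 1 + (-2) * w ^ 2 + (-1) * w ^ 3 + (5) * w ^ 4 + (-4) * w ^ 5 + (-3) * w ^ 6 + (4) * w ^ 7 + (-6) * w ^ 8 + (-1) * w ^ 9 + (1) * w ^ 10 + (-3) * w ^ 11 + (4) * w ^ 12 + (-1) * w ^ 13 + (-2) * w ^ 14) * hw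
  · funext p
    fin_cases p
    · simp only [Fin.zero_eta, Fin.mk_one, Fin.isValue, Pi.smul_apply, Pi.sub_apply, Pi.add_apply,
        Pi.zero_apply, smul_eq_mul, Matrix.cons_val_zero, Matrix.cons_val_one]
      linear_combination ((1) * w ^ 0 + (2) * w ^ 1 + (-1) * w ^ 2 + (-2) * w ^ 3 + (3) * w ^ 4 + (-7) * w ^ 5 + (1) * w ^ 6 + (2) * w ^ 7 + (-9) * w ^ 8 + (5) * w ^ 9 + (-3) * w ^ 10 + (-3) * w ^ 11) * hw
    · simp only [Fin.zero_eta, Fin.mk_one, Fin.isValue, Pi.smul_apply, Pi.sub_apply, Pi.add_apply,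
        Pi.zero_apply, smul_eq_mul, Matrix.cons_val_zero, Matrix.cons_val_one]
      linear_combination ((-1) * w ^ 0 + (-1) * w ^ 1 + (4) * w ^ 2 + (4) * w ^ 3 + (-10) * w ^ 4 + (6) * w ^ 5 + (8) * w ^ 6 + (-7) * w ^ 7 + (8) * w ^ 8 + (2) * w ^ 9 + (-1) * w ^ 10 + (3) * w ^ 11 + (-4) * w ^ 12 + (1) * w ^ 13 + (2) * w ^ 14) * hw
  · funext p
    fin_cases p
    · simp only [Fin.zero_eta, Fin.mk_one, Fin.isValue, Pi.smul_apply, Pi.sub_apply, Pi.add_apply,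
        Pi.zero_apply, smul_eq_mul, Matrix.cons_val_zero, Matrix.cons_val_one]
      linear_combination ((-2) * w ^ 1 + (2) * w ^ 2 + (-4) * w ^ 4 + (5) * w ^ 5 + (2) * w ^ 6 + (-1) * w ^ 7 + (3) * w ^ 8 + (-4) * w ^ 9 + (1) * w ^ 10 + (2) * w ^ 11) * hw
    · simp only [Fin.zero_eta, Fin.mk_one, Fin.isValue, Pi.smul_apply, Pi.sub_apply, Pi.add_apply,
        Pi.zero_apply, smul_eq_mul, Matrix.cons_val_zero, Matrix.cons_val_one]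
      linear_combination ((-1) * w ^ 0 + (1) * w ^ 1 + (-3) * w ^ 3 + (5) * w ^ 4 + (-2) * w ^ 5 + (-5) * w ^ 6 + (3) * w ^ 7 + (-2) * w ^ 8 + (-1) * w ^ 9) * hw
  · funext p
    fin_cases p
    · simp only [Fin.zero_eta, Fin.mk_one, Fin.isValue, Pi.smul_apply, Pi.sub_apply, Pi.add_apply,
        Pi.zero_apply, smul_eq_mul, Matrix.cons_val_zero, Matrix.cons_val_one]
      linear_combination ((1) * w ^ 1 + (-1) * w ^ 2) * hw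
    · simp only [Fin.zero_eta, Fin.mk_one, Fin.isValue, Pi.smul_apply, Pi.sub_apply, Pi.add_apply,
        Pi.zero_apply, smul_eq_mul, Matrix.cons_val_zero, Matrix.cons_val_one]
      linear_combination ((1) * w ^ 0 + (-1) * w ^ 1 + (-2) * w ^ 2) * hw

theorem val2 (w : ℂ) (hw : w ^ 2 + w + 1 = 0) (s0 s1 s2 s3 : V2 ℂ)
    (e0 : s0 = ![w - 1, 1 - w]) (e1 : s1 = ![w + 1, 3 * w + 1]) (e2 : s2 = ![-w - 1, 2])
    (e3 : s3 = 0)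
    (y2 y3 z1 z2 x2 x3 p1 p2 q0 q1 r1 r2 f0 f1 : V2 ℂ)
    (h1 : y2 = w • ![w ^ 2 * s3 1, w * s3 0]) (h2 : y3 = s2 + s3 - y2)
    (h3 : z2 = w ^ 2 • ![w * s1 1, w ^ 2 * s1 0]) (h4 : z1 = y2 + s1 - z2)
    (h5 : x2 = w • ![y3 1, y3 0]) (h6 : x3 = z2 + y3 - x2)
    (h7 : p2 = w ^ 2 • ![w * z1 1, w ^ 2 * z1 0]) (h8 : p1 = x2 + z1 - p2)
    (h9 : q0 = w • ![p1 1, p1 0]) (h10 : q1 = s0 + p1 - q0)
    (h11 : r2 = w ^ 2 • ![w * q1 1, w ^ 2 * q1 0]) (h12 : r1 = p2 + q1 - r2)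
    (h13 : f0 = w • ![w ^ 2 * r1 1, w * r1 0]) (h14 : f1 = q0 + r1 - f0) :
    f0 = s0 ∧ f1 = s1 ∧ r2 = s2 ∧ x3 = s3 := by
  subst h14 h13 h12 h11 h10 h9 h8 h7 h6 h5 h4 h3 h2 h1
  subst e0 e1 e2 e3
  refine ⟨?_, ?_, ?_, ?_⟩
  · funext p
    fin_cases p
    · simp only [Fin.zero_eta, Fin.mk_one, Fin.isValue, Pi.smul_apply, Pi.sub_apply, Pi.add_apply,
        Pi.zero_apply, smul_eq_mul, Matrix.cons_val_zero, Matrix.cons_val_one]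
      linear_combination ((1) * w ^ 0 + (-2) * w ^ 1 + (1) * w ^ 2 + (3) * w ^ 3 + (-4) * w ^ 4 + (-3) * w ^ 5 + (7) * w ^ 6 + (-3) * w ^ 7 + (-2) * w ^ 8 + (7) * w ^ 9 + (-4) * w ^ 10 + (2) * w ^ 11 + (-1) * w ^ 12 + (-3) * w ^ 13 + (3) * w ^ 14) * hw
    · simp only [Fin.zero_eta, Fin.mk_one, Fin.isValue, Pi.smul_apply, Pi.sub_apply, Pi.add_apply,
        Pi.zero_apply, smul_eq_mul, Matrix.cons_val_zero, Matrix.cons_val_one]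
      linear_combination ((-1) * w ^ 0 + (2) * w ^ 1 + (-1) * w ^ 2 + (2) * w ^ 3 + (-3) * w ^ 4 + (-1) * w ^ 5 + (1) * w ^ 6 + (6) * w ^ 7 + (-5) * w ^ 8 + (-1) * w ^ 9 + (1) * w ^ 10 + (-3) * w ^ 11 + (1) * w ^ 12) * hw
  · funext p
    fin_cases p
    · simp only [Fin.zero_eta, Fin.mk_one, Fin.isValue, Pi.smul_apply, Pi.sub_apply, Pi.add_apply,
        Pi.zero_apply, smul_eq_mul, Matrix.cons_val_zero, Matrix.cons_val_one]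
      linear_combination ((-1) * w ^ 0 + (4) * w ^ 1 + (-3) * w ^ 2 + (-6) * w ^ 3 + (6) * w ^ 4 + (8) * w ^ 5 + (-14) * w ^ 6 + (5) * w ^ 7 + (3) * w ^ 8 + (-10) * w ^ 9 + (5) * w ^ 10 + (-2) * w ^ 11 + (1) * w ^ 12 + (3) * w ^ 13 + (-3) * w ^ 14) * hw
    · simp only [Fin.zero_eta, Fin.mk_one, Fin.isValue, Pi.smul_apply, Pi.sub_apply, Pi.add_apply,
        Pi.zero_apply, smul_eq_mul, Matrix.cons_val_zero, Matrix.cons_val_one]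
      linear_combination ((1) * w ^ 0 + (-3) * w ^ 1 + (1) * w ^ 2 + (-1) * w ^ 3 + (1) * w ^ 4 + (-2) * w ^ 5 + (6) * w ^ 6 + (-9) * w ^ 7 + (7) * w ^ 8 + (-4) * w ^ 10 + (6) * w ^ 11 + (-1) * w ^ 12) * hw
  · funext p
    fin_cases p
    · simp only [Fin.zero_eta, Fin.mk_one, Fin.isValue, Pi.smul_apply, Pi.sub_apply, Pi.add_apply,
        Pi.zero_apply, smul_eq_mul, Matrix.cons_val_zero, Matrix.cons_val_one]
      linear_combination ((1) * w ^ 0 + (-1) * w ^ 2 + (3) * w ^ 3 + (-2) * w ^ 4 + (-5) * w ^ 5 + (7) * w ^ 6 + (-2) * w ^ 7 + (-1) * w ^ 8 + (3) * w ^ 9 + (-1) * w ^ 10) * hw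
    · simp only [Fin.zero_eta, Fin.mk_one, Fin.isValue, Pi.smul_apply, Pi.sub_apply, Pi.add_apply,
        Pi.zero_apply, smul_eq_mul, Matrix.cons_val_zero, Matrix.cons_val_one]
      linear_combination ((-2) * w ^ 0 + (2) * w ^ 1 + (-2) * w ^ 3 + (2) * w ^ 4 + (3) * w ^ 5 + (-7) * w ^ 6 + (3) * w ^ 7 + (-2) * w ^ 8 + (1) * w ^ 9 + (3) * w ^ 10 + (-3) * w ^ 11) * hw
  · funext p
    fin_cases p
    · simp only [Fin.zero_eta, Fin.mk_one, Fin.isValue, Pi.smul_apply, Pi.sub_apply, Pi.add_apply,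
        Pi.zero_apply, smul_eq_mul, Matrix.cons_val_zero, Matrix.cons_val_one]
      linear_combination ((-1) * w ^ 0 + (-2) * w ^ 1 + (3) * w ^ 2) * hw
    · simp only [Fin.zero_eta, Fin.mk_one, Fin.isValue, Pi.smul_apply, Pi.sub_apply, Pi.add_apply,
        Pi.zero_apply, smul_eq_mul, Matrix.cons_val_zero, Matrix.cons_val_one]
      linear_combination ((2) * w ^ 0 + (-1) * w ^ 1 + (1) * w ^ 3) * hw

theorem si_far (hA : TwA) {R : Type} [CommRing R] {m : ℕ} (t : Rˣ) (e : AddChar (ZMod m) R)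
    (i j : ℕ) (h1 : j ≠ i) (h2 : j ≠ i + 1) (a : ℕ → ZMod m) (s : ℕ → V2 R) :
    tw t e (σ i) a s j = s j := by
  rw [hA.σ_apply]; simp [h1, h2]

theorem sii_far (hA : TwA) {R : Type} [CommRing R] {m : ℕ} (t : Rˣ) (e : AddChar (ZMod m) R)
    (i j : ℕ) (h1 : j ≠ i) (h2 : j ≠ i + 1) (a : ℕ → ZMod m) (s : ℕ → V2 R) :
    tw t e (σ i)⁻¹ a s j = s j := by
  rw [hA.σ_inv_apply]; simp [h1, h2]

theorem blk_far (hA : TwA) {R : Type} [CommRing R] {m : ℕ} (t : Rˣ) (e : AddChar (ZMod m) R)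
    (j : ℕ) (hj : 4 ≤ j) (a : ℕ → ZMod m) (s : ℕ → V2 R) :
    tw t e β77 a s j = s j := by
  have A : ∀ (a : ℕ → ZMod m) (s : ℕ → V2 R), tw t e (σ 0)⁻¹ a s j = s j :=
    sii_far hA t e 0 j (by omega) (by omega)
  have C : ∀ (a : ℕ → ZMod m) (s : ℕ → V2 R), tw t e (σ 2)⁻¹ a s j = s j :=
    sii_far hA t e 2 j (by omega) (by omega)
  have D : ∀ (a : ℕ → ZMod m) (s : ℕ → V2 R), tw t e (σ 1) a s j = s j :=
    si_far hA t e 1 j (by omega) (by omega)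
  unfold β77
  simp only [hA.mul]
  rw [A, D, A, D, C, D, C]

theorem KL2_thm (hA : TwA) : KL2Stmt := by
  intro k z hz hz0 a hP
  obtain ⟨hP0, hP1⟩ := hP
  have a0 : a 0 = 0 := hP0 0 (by norm_num)
  have a3 : a 3 = 0 := hP0 1 le_rfl
  have a1 : a 1 = ((3 ^ k * z : ℕ) : ZMod (3 ^ (k + 1))) := (hP1 0 (by norm_num)).1
  have a2 : a 2 = ((3 ^ k * z : ℕ) : ZMod (3 ^ (k + 1))) := (hP1 0 (by norm_num)).2
  have hc := three_c k z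
  have he := eC_val k z
  have hw := om3_quad
  have hw3 := om3_cube
  generalize hcc : ((3 ^ k * z : ℕ) : ZMod (3 ^ (k + 1))) = c at a1 a2 hc he
  have key : tw tC (eC k) β77 a (v0 z) 0 = v0 z 0 ∧ tw tC (eC k) β77 a (v0 z) 1 = v0 z 1 ∧
      tw tC (eC k) β77 a (v0 z) 2 = v0 z 2 ∧ tw tC (eC k) β77 a (v0 z) 3 = v0 z 3 := by
    interval_cases z
    · exact absurd rfl hz0
    · have hu : eC k c = om3 := by rw [he, pow_one]
      have hu' := eC_neg k c om3 (om3 ^ 2) hu (by linear_combination hw3)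
      obtain ⟨y2, y3, z1, z2, x2, x3, p1, p2, q0, q1, r1, r2, f0, f1, h1, h2, h3, h4, h5, h6, h7,
        h8, h9, h10, h11, h12, h13, h14, k0, k1, k2, k3⟩ :=
        blk hA tC (eC k) a c a0 a1 a2 a3 hc (v0 1) om3 (om3 ^ 2) om3 (om3 ^ 2) rfl tC_inv hu hu'
      obtain ⟨g0, g1, g2, g3⟩ := val1 om3 hw (v0 1 0) (v0 1 1) (v0 1 2) (v0 1 3) rfl rfl rfl rfl
        y2 y3 z1 z2 x2 x3 p1 p2 q0 q1 r1 r2 f0 f1 h1 h2 h3 h4 h5 h6 h7 h8 h9 h10 h11 h12 h13 h14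
      exact ⟨k0.trans g0, k1.trans g1, k2.trans g2, k3.trans g3⟩
    · have hu : eC k c = om3 ^ 2 := by rw [he]
      have hu' := eC_neg k c (om3 ^ 2) om3 hu (by linear_combination hw3)
      obtain ⟨y2, y3, z1, z2, x2, x3, p1, p2, q0, q1, r1, r2, f0, f1, h1, h2, h3, h4, h5, h6, h7,
        h8, h9, h10, h11, h12, h13, h14, k0, k1, k2, k3⟩ :=
        blk hA tC (eC k) a c a0 a1 a2 a3 hc (v0 2) om3 (om3 ^ 2) (om3 ^ 2) om3 rfl tC_inv hu hu'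
      obtain ⟨g0, g1, g2, g3⟩ := val2 om3 hw (v0 2 0) (v0 2 1) (v0 2 2) (v0 2 3) rfl rfl rfl rfl
        y2 y3 z1 z2 x2 x3 p1 p2 q0 q1 r1 r2 f0 f1 h1 h2 h3 h4 h5 h6 h7 h8 h9 h10 h11 h12 h13 h14
      exact ⟨k0.trans g0, k1.trans g1, k2.trans g2, k3.trans g3⟩
  funext j
  by_cases hj : 4 ≤ j
  · exact blk_far hA _ _ j hj _ _
  · push Not at hj
    interval_cases j
    · exact key.1
    · exact key.2.1
    · exact key.2.2.1
    · exact key.2.2.2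

end Pool.Agent.H64.SG
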